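import Mathlib

open Finset

namespace Pool.Agent.R872.ZS

/-- An `m`-subset of the cyclic group of even order `2 N`, with few subset sums. -/
theorem cyclic_example (m N : ℕ) (hm : 1 ≤ m) (hN : m ^ 2 / 2 + 2 ≤ 2 * N) :
    ∃ A : Finset (ZMod (2 * N)), A.card = m ∧
      (∀ B ⊆ A, B.Nonempty → ∑ x ∈ B, x ≠ 0) ∧
      {s | ∃ B : Finset (ZMod (2 * N)), B ⊆ A ∧ B.Nonempty ∧ ∑ x ∈ B, x = s}.encard ≤
        ((m ^ 2 / 2 + 1 : ℕ) : ℕ∞) := by
  classical
  obtain ⟨a, ha⟩ : ∃ a, a = (m - 1) / 2 := ⟨_, rfl⟩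
  obtain ⟨b, hb⟩ : ∃ b, b = m / 2 := ⟨_, rfl⟩
  obtain ⟨I, hI⟩ : ∃ I : Finset (ℕ × ℕ), I = (Finset.Icc 1 a).image (fun i => (i, 0)) ∪
    (Finset.range (b + 1)).image (fun i => (i, 1)) := ⟨_, rfl⟩
  have hdisj : Disjoint ((Finset.Icc 1 a).image (fun i => ((i, 0) : ℕ × ℕ)))
      ((Finset.range (b + 1)).image (fun i => ((i, 1) : ℕ × ℕ))) := by
    rw [Finset.disjoint_left]
    intro p hp hp'
    rw [Finset.mem_image] at hp hp'
    obtain ⟨i, _, rfl⟩ := hp
    obtain ⟨j, _, hj⟩ := hp'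
    simp at hj
  have hIcard : I.card = m := by
    rw [hI, Finset.card_union_of_disjoint hdisj, Finset.card_image_of_injective,
      Finset.card_image_of_injective, Nat.card_Icc, Finset.card_range]
    · omega
    · intro i j h; simpa using h
    · intro i j h; simpa using h
  have htri : ∀ n : ℕ, 2 * ∑ i ∈ Finset.range (n + 1), i = n * (n + 1) := by
    intro n
    have := Finset.sum_range_id_mul_two (n + 1)
    rw [Nat.add_sub_cancel] at this
    have e : (n + 1) * n = n * (n + 1) := mul_comm _ _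
    omega
  have htri1 : 2 * ∑ i ∈ Finset.Icc 1 a, i = a * (a + 1) := by
    rw [← htri a]
    have h2 : Finset.range (a + 1) = insert 0 (Finset.Icc 1 a) := by
      ext i
      simp only [Finset.mem_range, Finset.mem_insert, Finset.mem_Icc]
      omega
    rw [h2, Finset.sum_insert (by simp), zero_add]
  obtain ⟨S, hS⟩ : ∃ S, S = ∑ p ∈ I, p.1 := ⟨_, rfl⟩
  have hS2 : 2 * S = a * (a + 1) + b * (b + 1) := by
    rw [hS, hI, Finset.sum_union hdisj, Finset.sum_image (by intro i _ j _ h; simpa using h),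
      Finset.sum_image (by intro i _ j _ h; simpa using h), mul_add]
    simp only
    rw [htri1, htri b]
  have hS3 : 2 * S = m ^ 2 / 2 := by
    rw [hS2]
    rcases Nat.even_or_odd m with ⟨c, hc⟩ | ⟨c, hc⟩
    · obtain ⟨c', rfl⟩ : ∃ c', c = c' + 1 := ⟨c - 1, by omega⟩
      have h1 : a = c' := by omega
      have h2 : b = c' + 1 := by omega
      have h3 : m ^ 2 = 2 * (2 * (c' + 1) ^ 2) := by rw [hc]; ring
      rw [h3, Nat.mul_div_cancel_left _ (by norm_num), h1, h2]
      ring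
    · have h1 : a = c := by omega
      have h2 : b = c := by omega
      have h3 : m ^ 2 = 2 * (2 * (c * (c + 1))) + 1 := by rw [hc]; ring
      rw [h3, h1, h2]
      omega
  have hSN : S < N := by omega
  have hmemI : ∀ p ∈ I, p.1 ≤ S ∧ p.2 < 2 ∧ (p.2 = 0 → 1 ≤ p.1) := by
    intro p hp
    refine ⟨?_, ?_⟩
    · rw [hS]
      exact Finset.single_le_sum (f := fun p : ℕ × ℕ => p.1) (fun _ _ => Nat.zero_le _) hp
    rw [hI, Finset.mem_union, Finset.mem_image, Finset.mem_image] at hp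
    rcases hp with ⟨i, hi, rfl⟩ | ⟨i, hi, rfl⟩
    · rw [Finset.mem_Icc] at hi
      exact ⟨by norm_num, fun _ => hi.1⟩
    · exact ⟨by norm_num, by simp⟩
  let w : ℕ × ℕ → ℕ := fun p => p.1 + N * p.2
  have hw : ∀ p : ℕ × ℕ, p.1 ≤ S → p.2 < 2 → w p < 2 * N := by
    intro p h1 h2
    have : N * p.2 ≤ N := by
      have : p.2 ≤ 1 := by omega
      calc N * p.2 ≤ N * 1 := Nat.mul_le_mul_left _ this
        _ = N := mul_one _
    show p.1 + N * p.2 < 2 * N
    omega
  let φ : ℕ × ℕ → ZMod (2 * N) := fun p => (w p : ZMod (2 * N))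
  have : NeZero (2 * N) := ⟨by omega⟩
  have hinj : ∀ p : ℕ × ℕ, p.1 ≤ S → p.2 < 2 → ∀ p' : ℕ × ℕ, p'.1 ≤ S → p'.2 < 2 →
      φ p = φ p' → p = p' := by
    intro p h1 h2 p' h1' h2' h
    have h3 : w p = w p' := by
      have := congrArg ZMod.val h
      rwa [ZMod.val_natCast_of_lt (hw p h1 h2), ZMod.val_natCast_of_lt (hw p' h1' h2')] at this
    have h4 : p.1 + N * p.2 = p'.1 + N * p'.2 := h3
    have h5 : p.1 = p'.1 ∧ p.2 = p'.2 := by
      obtain ⟨x, y⟩ := p
      obtain ⟨x', y'⟩ := p'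
      simp only at h1 h2 h1' h2' h4 ⊢
      interval_cases y <;> interval_cases y' <;> omega
    exact Prod.ext h5.1 h5.2
  have hinjI : Set.InjOn φ (I : Set (ℕ × ℕ)) := by
    intro p hp p' hp' h
    exact hinj p (hmemI p hp).1 (hmemI p hp).2.1 p' (hmemI p' hp').1 (hmemI p' hp').2.1 h
  -- subsets of the image
  have hsub : ∀ B ⊆ I.image φ, ∃ J ⊆ I, B = J.image φ := by
    intro B hB
    refine ⟨I.filter (fun p => φ p ∈ B), Finset.filter_subset _ _, ?_⟩
    ext x
    simp only [Finset.mem_image, Finset.mem_filter]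
    constructor
    · intro hx
      obtain ⟨p, hp, rfl⟩ := Finset.mem_image.mp (hB hx)
      exact ⟨p, ⟨hp, hx⟩, rfl⟩
    · rintro ⟨p, ⟨_, hp⟩, rfl⟩
      exact hp
  have hsum : ∀ J ⊆ I, ∑ x ∈ J.image φ, x =
      ((∑ p ∈ J, p.1 + N * ∑ p ∈ J, p.2 : ℕ) : ZMod (2 * N)) := by
    intro J hJ
    rw [Finset.sum_image (fun p hp p' hp' h => hinjI (hJ hp) (hJ hp') h)]
    simp only [φ, w]
    rw [← Nat.cast_sum, Finset.sum_add_distrib, ← Finset.mul_sum]
  have hmod : ∀ s t : ℕ, ((s + N * t : ℕ) : ZMod (2 * N)) = φ (s, t % 2) := by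
    intro s t
    have h1 : s + N * t = (s + N * (t % 2)) + 2 * N * (t / 2) := by
      have := Nat.mod_add_div t 2
      calc s + N * t = s + N * (t % 2 + 2 * (t / 2)) := by rw [this]
        _ = _ := by ring
    rw [h1, Nat.cast_add, Nat.cast_mul (2 * N), ZMod.natCast_self, zero_mul, add_zero]
  have hsle : ∀ J ⊆ I, ∑ p ∈ J, p.1 ≤ S := by
    intro J hJ
    rw [hS]
    exact Finset.sum_le_sum_of_subset hJ
  have hzero : φ (0, 0) = 0 := by simp [φ, w]
  have hne : ∀ J ⊆ I, J.Nonempty → ∑ x ∈ J.image φ, x ≠ 0 := by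
    intro J hJ hJne h0
    rw [hsum J hJ, hmod, ← hzero] at h0
    have h1 := hinj _ (hsle J hJ) (Nat.mod_lt _ (by norm_num)) (0, 0) (Nat.zero_le _)
      (by norm_num) h0
    have h2 : ∑ p ∈ J, p.1 = 0 := congrArg Prod.fst h1
    have h3 : (∑ p ∈ J, p.2) % 2 = 0 := congrArg Prod.snd h1
    have h4 : ∀ p ∈ J, p = (0, 1) := by
      intro p hp
      have h5 : p.1 = 0 := (Finset.sum_eq_zero_iff.mp h2) p hp
      have h6 := hmemI p (hJ hp)
      have h7 : p.2 = 1 := by
        by_contra hcon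
        have : p.2 = 0 := by omega
        have := h6.2.2 this
        omega
      exact Prod.ext h5 h7
    have h5 : J = {(0, 1)} := by
      ext p
      rw [Finset.mem_singleton]
      constructor
      · exact h4 p
      · rintro rfl
        obtain ⟨q, hq⟩ := hJne
        rw [← h4 q hq]
        exact hq
    rw [h5] at h3
    simp at h3
  refine ⟨I.image φ, ?_, ?_, ?_⟩
  · rw [Finset.card_image_of_injOn hinjI, hIcard]
  · intro B hB hBne
    obtain ⟨J, hJ, rfl⟩ := hsub B hB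
    exact hne J hJ (Finset.image_nonempty.mp hBne)
  · let R : Finset (ZMod (2 * N)) := ((Finset.range (S + 1) ×ˢ Finset.range 2).image φ).erase 0
    have h1 : {s | ∃ B : Finset (ZMod (2 * N)), B ⊆ I.image φ ∧ B.Nonempty ∧ ∑ x ∈ B, x = s} ⊆
        (R : Set (ZMod (2 * N))) := by
      rintro s ⟨B, hB, hBne, rfl⟩
      obtain ⟨J, hJ, rfl⟩ := hsub B hB
      rw [Finset.mem_coe, Finset.mem_erase]
      refine ⟨hne J hJ (Finset.image_nonempty.mp hBne), ?_⟩
      rw [hsum J hJ, hmod]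
      refine Finset.mem_image_of_mem _ ?_
      rw [Finset.mem_product, Finset.mem_range, Finset.mem_range]
      have := hsle J hJ
      exact ⟨by simp only; omega, Nat.mod_lt _ (by norm_num)⟩
    have h2 : R.card ≤ m ^ 2 / 2 + 1 := by
      have h3 : (0 : ZMod (2 * N)) ∈ (Finset.range (S + 1) ×ˢ Finset.range 2).image φ := by
        rw [← hzero]
        refine Finset.mem_image_of_mem _ ?_
        simp
      have h4 : ((Finset.range (S + 1) ×ˢ Finset.range 2).image φ).card ≤ (S + 1) * 2 := by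
        refine le_trans Finset.card_image_le ?_
        rw [Finset.card_product, Finset.card_range, Finset.card_range]
      have h5 := Finset.card_erase_of_mem h3
      show (((Finset.range (S + 1) ×ˢ Finset.range 2).image φ).erase 0).card ≤ _
      omega
    calc _ ≤ (R : Set (ZMod (2 * N))).encard := Set.encard_le_encard h1
      _ = (R.card : ℕ∞) := Set.encard_coe_eq_coe_finsetCard R
      _ ≤ _ := by exact_mod_cast h2

end Pool.Agent.R872.ZS
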